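import Pool.Agent.Singer.FinStmt
import Pool.Agent.Singer.PDStmt
import Pool.Agent.Singer.Gen.MirStmt
import Pool.Agent.SQ.U.Cls

/-!
# The classes `Up n` of groups without `ℓ²`-homology above the degree `n / 2`

`Up n Γ`: the smallest classes of groups which contain the subgroups of type `FP_∞` of the `n`-dimensional Poincare duality
groups if they are in the class `Cls` (the smallest class of groups which is closed under extensions with bi-orderable or
amenable locally indicable quotients and residually) (`sub`) and the groups of dimension at most `n / 2` (`dim`), and which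
are closed under passing to groups commensurable up to finite index (`supergroup`, `subgroup`) and to larger `n` (`mono`), and
under several constructions with groups acting on trees (`mirror`, `tree`, `vertex`).
-/

set_option autoImplicit false

universe u

namespace SQ.UH

open Singer

/-- `T` is a tree on which `Γ` acts without inversions, with finitely many orbits of edges, such that the stabilizers of the
vertices and the edges are of type `FP_∞`, and the finite set `F` of vertices meets all orbits -/
structure TreeAction (Γ : Type u) [Group Γ] {V : Type u} [MulAction Γ V] (T : SimpleGraph V) (F : Finset V) : Prop where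
  tree : T.IsTree
  act : ∀ (g : Γ) (v w : V), T.Adj v w → T.Adj (g • v) (g • w)
  inv : ∀ (g : Γ) (v w : V), T.Adj v w → g • v = w → g • w ≠ v
  vert : ∀ v, ∃ x ∈ F, ∃ g : Γ, g • x = v
  edge : ∃ K : Finset V, ∀ v w, T.Adj v w → ∃ g : Γ, g • v ∈ K ∧ g • w ∈ K
  finV : ∀ v : V, Nonempty (FinRes (MulAction.stabilizer Γ v))
  finE : ∀ v w, T.Adj v w → Nonempty (FinRes (MulAction.stabilizer Γ v ⊓ MulAction.stabilizer Γ w : Subgroup Γ))

/-- The classes of groups.
* `sub`: `Γ` has a subgroup of finite index (the image of `j`) which is isomorphic to a subgroup `K` of type `FP_∞` of a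
  Poincare duality group `P` of dimension `n`, and `K` is in the class `Cls`.
* `dim`: `Γ` has a resolution by finitely generated free modules which is zero in the degrees `i` with `2 * i > n`.
* `supergroup`, `subgroup`: `Γ` contains a group of the class as a subgroup of finite index, or is a subgroup of finite index of a
  group of the class.
* `mono`: larger `n`.
* `mirror`: `Γ` acts on a tree and the mirrored groups `MirrorGroup Γ T x` of all vertices are in the class.
* `tree`: `Γ` acts on a tree, the stabilizers of all vertices are in `Up n` and the stabilizers of all edges are in `Up m`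
  for some `m < 2 * (n / 2)`, i.e. `m ≤ n - 2`, or `m = n - 1` and `n` is even.
* `vertex`: `Γ` is the stabilizer of a vertex for an action of a group in the class on a tree such that the stabilizers of
  all edges are in the class. -/
inductive Up : ℕ → ∀ (Γ : Type u) [Group Γ], Prop
  | sub {n : ℕ} {Γ : Type u} [Group Γ] {P : Type} [Group P] (K : Subgroup P) (R : FinRes K) (j : K →* Γ) :
      IsPD n P → U.Cls K → Function.Injective j → j.range.FiniteIndex → Up n Γ
  | dim {n : ℕ} {Γ : Type u} [Group Γ] (R : FinRes Γ) : (∀ i, n < 2 * i → IsEmpty (R.ι i)) → Up n Γ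
  | supergroup {n : ℕ} {Γ H : Type u} [Group Γ] [Group H] (j : H →* Γ) :
      Function.Injective j → j.range.FiniteIndex → Up n H → Up n Γ
  | subgroup {n : ℕ} {Γ H : Type u} [Group Γ] [Group H] (j : Γ →* H) (R : FinRes H) :
      Function.Injective j → j.range.FiniteIndex → Up n H → Up n Γ
  | mono {m n : ℕ} {Γ : Type u} [Group Γ] : m ≤ n → Up m Γ → Up n Γ
  | mirror {n : ℕ} {Γ V : Type u} [Group Γ] [MulAction Γ V] (T : SimpleGraph V) (F : Finset V) :
      TreeAction Γ T F → (∀ x ∈ F, Up n (MirrorGroup Γ T x)) → Up n Γ
  | tree {m n : ℕ} {Γ V : Type u} [Group Γ] [MulAction Γ V] (T : SimpleGraph V) (F : Finset V) :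
      TreeAction Γ T F → m < 2 * (n / 2) → (∀ x ∈ F, Up n (MulAction.stabilizer Γ x)) →
      (∀ v w, T.Adj v w → Up m (MulAction.stabilizer Γ v ⊓ MulAction.stabilizer Γ w : Subgroup Γ)) → Up n Γ
  | vertex {n : ℕ} {G V : Type u} [Group G] [MulAction G V] (T : SimpleGraph V) (F : Finset V) (v : V) :
      TreeAction G T F → Up n G →
      (∀ v w, T.Adj v w → Up n (MulAction.stabilizer G v ⊓ MulAction.stabilizer G w : Subgroup G)) →
      Up n (MulAction.stabilizer G v)

end SQ.UH
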