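import Pool.Agent.SQ.UpH.Main
import Pool.Agent.SQ.U.NT

/-!
# Groups in the class `Up n` have no `ℓ²`-homology above the degree `n / 2` (without hypotheses)
-/

set_option autoImplicit false

universe u

namespace SQ.UH

open Singer

theorem stmtSub : StmtSub := fun _ _ _ hn K hK R i hi => U.vanE_sub_cls_of U.stmtCoef hn K hK R i hi

/-- the groups of the class `Up n` have no reduced `ℓ²`-homology in the degrees `i > n / 2` -/
theorem vanE {n : ℕ} {Γ : Type u} [Group Γ] (h : Up n Γ) {i : ℕ} (hi : n < 2 * i) (R : FinRes Γ) : R.VanE i :=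
  h.vanE stmtSub hi R

/-- the Singer conjecture for the Poincare duality groups of the class -/
theorem vanE_pd {n : ℕ} {Γ : Type} [Group Γ] (h : Up n Γ) (hn : IsPD n Γ) {i : ℕ} (hi : 2 * i ≠ n) (R : FinRes Γ) :
    R.VanE i :=
  h.vanE_pd stmtSub hn hi R

end SQ.UH
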